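import Mathlib
import Pool.Agent.Helper958.ExpP.Main
import Pool.Agent.Helper958.ExpP.Hall

set_option autoImplicit false

/-- There is a function `f` such that every finite `p`-group with a subgroup of exponent `p`, index
`p` and derived length at most `s` has a characteristic subgroup of exponent `p` and index at most
`f p s`. -/
theorem Pool.Agent.Results.MP_a092f6_al.BoundedDerivedLength.result :
    ∃ f : ℕ → ℕ → ℕ, ∀ p : ℕ, p.Prime → ∀ s : ℕ, ∀ (G : Type) [Group G] [Finite G],
      IsPGroup p G →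
      (∃ H : Subgroup G, H.index = p ∧ (∀ h ∈ H, h ^ p = 1) ∧ derivedSeries H s = ⊥) →
      ∃ C : Subgroup G, C.Characteristic ∧ (∀ c ∈ C, c ^ p = 1) ∧ C.index ≤ f p s := by
  refine ⟨fun p s => p ^ (2 * Pool.Agent.Helper958.ExpP.cls p (s + 1)), ?_⟩
  intro p hp s G _ _ hG hex
  haveI : Fact p.Prime := ⟨hp⟩
  have hDD : ∀ H : Subgroup G, derivedSeries H s = ⊥ ↔
      Pool.Agent.Helper958.ExpP.DD H s = ⊥ := by
    intro H
    rw [← Pool.Agent.Helper958.ExpP.DD_top,
      ← Subgroup.map_eq_bot_iff_of_injective _ H.subtype_injective,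
      Pool.Agent.Helper958.ExpP.DD_map, ← MonoidHom.range_eq_map, Subgroup.range_subtype]
  refine Pool.Agent.Helper958.ExpP.main p (Pool.Agent.Helper958.ExpP.cls p (s + 1)) ?_ hG
    (fun H => derivedSeries H s = ⊥) ?_ ?_ hex
  · rw [Pool.Agent.Helper958.ExpP.cls]
    omega
  · intro φ H hQ
    rw [hDD] at hQ ⊢
    have h1 : (H.comap φ.toMonoidHom).map φ.toMonoidHom = H :=
      Subgroup.map_comap_eq_self_of_surjective φ.surjective H
    have h2 : (Pool.Agent.Helper958.ExpP.DD (H.comap φ.toMonoidHom) s).map φ.toMonoidHom = ⊥ := by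
      rw [Pool.Agent.Helper958.ExpP.DD_map, h1, hQ]
    exact (Subgroup.map_eq_bot_iff_of_injective _ φ.injective).1 h2
  · intro H hexp hder
    have hnil : Group.IsNilpotent G := hG.isNilpotent
    have hnilH : Group.IsNilpotent H := Subgroup.isNilpotent H
    have h1 := Pool.Agent.Helper958.ExpP.sol_class p (s + 1) H
      (fun g => Subtype.ext (hexp g.1 g.2)) (by
        rw [Pool.Agent.Helper958.ExpP.DD, Pool.Agent.Helper958.ExpP.DD_top, hder,
          Subgroup.commutator_bot_left]) hnilH
    rw [← Subgroup.top_subtype_lowerCentralSeries]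
    have h3 : (⊤ : Subgroup H).lowerCentralSeries
      (Pool.Agent.Helper958.ExpP.cls p (s + 1)) = ⊥ := h1
    rw [h3, Subgroup.map_bot]
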