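import Mathlib
import Pool.Agent.Helper958.ExpP.Main
import Pool.Agent.Helper958.ExpP.Metab

set_option autoImplicit false

/-- Every finite `p`-group with a metabelian subgroup of exponent `p` and index `p` has a
characteristic subgroup of exponent `p` and index at most `p ^ (2 * p)`. -/
theorem Pool.Agent.Results.MP_a092f6_al.Metabelian.result :
    ∀ p : ℕ, p.Prime → ∀ (G : Type) [Group G] [Finite G], IsPGroup p G →
      (∃ H : Subgroup G, H.index = p ∧ (∀ h ∈ H, h ^ p = 1) ∧
        (∀ x ∈ ⁅H, H⁆, ∀ y ∈ ⁅H, H⁆, x * y = y * x)) →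
      ∃ C : Subgroup G, C.Characteristic ∧ (∀ c ∈ C, c ^ p = 1) ∧ C.index ≤ p ^ (2 * p) := by
  intro p hp G _ _ hG hex
  haveI : Fact p.Prime := ⟨hp⟩
  refine Pool.Agent.Helper958.ExpP.main p p hp.one_lt.le hG
    (fun H => ∀ x ∈ ⁅H, H⁆, ∀ y ∈ ⁅H, H⁆, x * y = y * x) ?_ ?_ hex
  · intro φ H hQ x hx y hy
    have hmap : ∀ z ∈ ⁅H.comap φ.toMonoidHom, H.comap φ.toMonoidHom⁆, φ z ∈ ⁅H, H⁆ := by
      intro z hz
      have h1 : φ.toMonoidHom z ∈
          (⁅H.comap φ.toMonoidHom, H.comap φ.toMonoidHom⁆).map φ.toMonoidHom := ⟨z, hz, rfl⟩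
      rw [Subgroup.map_commutator] at h1
      exact Subgroup.commutator_mono (Subgroup.map_comap_le _ _) (Subgroup.map_comap_le _ _) h1
    apply φ.injective
    rw [map_mul, map_mul]
    exact hQ _ (hmap x hx) _ (hmap y hy)
  · intro H hexp hab
    have hnil : Group.IsNilpotent G := hG.isNilpotent
    have hnilH : Group.IsNilpotent H := Subgroup.isNilpotent H
    obtain ⟨N, hN⟩ := (Subgroup.nilpotent_iff_lowerCentralSeries (G := H)).1 hnilH
    have hcom : (commutator H).map H.subtype = ⁅H, H⁆ := by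
      have h1 := Subgroup.top_subtype_lowerCentralSeries H 1
      rw [Subgroup.top_lowerCentralSeries_one] at h1
      exact h1
    have h1 := Pool.Agent.Helper958.ExpP.meier_wunderli (Γ := H) p
      (fun g => Subtype.ext (hexp g.1 g.2)) (by
        intro x hx y hy
        apply Subtype.ext
        have hx' : H.subtype x ∈ ⁅H, H⁆ := by rw [← hcom]; exact ⟨x, hx, rfl⟩
        have hy' : H.subtype y ∈ ⁅H, H⁆ := by rw [← hcom]; exact ⟨y, hy, rfl⟩
        exact hab _ hx' _ hy') N hN
    have h2 := Subgroup.top_subtype_lowerCentralSeries H p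
    rw [← h2]
    have h3 : (⊤ : Subgroup H).lowerCentralSeries p = ⊥ := h1
    rw [h3, Subgroup.map_bot]
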