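import Mathlib
import Pool.Agent.Helper958.ExpP.Main
import Pool.Agent.Helper958.ExpP.Three

set_option autoImplicit false

/-- Every finite 2-group with a subgroup of exponent 2 and index 2 has a characteristic subgroup of
exponent 2 and index at most 4; every finite 3-group with a subgroup of exponent 3 and index 3 has
a characteristic subgroup of exponent 3 and index at most 729. -/
theorem Pool.Agent.Results.MP_a092f6_al.PrimesTwoThree.result :
    (∀ (G : Type) [Group G] [Finite G], IsPGroup 2 G →
      (∃ H : Subgroup G, H.index = 2 ∧ ∀ h ∈ H, h ^ 2 = 1) →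
      ∃ C : Subgroup G, C.Characteristic ∧ (∀ c ∈ C, c ^ 2 = 1) ∧ C.index ≤ 4) ∧
    (∀ (G : Type) [Group G] [Finite G], IsPGroup 3 G →
      (∃ H : Subgroup G, H.index = 3 ∧ ∀ h ∈ H, h ^ 3 = 1) →
      ∃ C : Subgroup G, C.Characteristic ∧ (∀ c ∈ C, c ^ 3 = 1) ∧ C.index ≤ 729) := by
  refine ⟨?_, ?_⟩
  · intro G _ _ hG hex
    haveI : Fact (Nat.Prime 2) := ⟨Nat.prime_two⟩
    obtain ⟨H, hH1, hH2⟩ := hex
    have h := Pool.Agent.Helper958.ExpP.main 2 1 le_rfl hG (fun _ => True)
      (fun _ _ _ => trivial) (by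
        intro H hexp _
        have h1 := Pool.Agent.Helper958.ExpP.two_class (Γ := H)
          (fun g => Subtype.ext (hexp g.1 g.2))
        rw [← Subgroup.top_subtype_lowerCentralSeries]
        have h3 : (⊤ : Subgroup H).lowerCentralSeries 1 = ⊥ := h1
        rw [h3, Subgroup.map_bot]) ⟨H, hH1, hH2, trivial⟩
    norm_num at h
    exact h
  · intro G _ _ hG hex
    haveI : Fact (Nat.Prime 3) := ⟨Nat.prime_three⟩
    obtain ⟨H, hH1, hH2⟩ := hex
    have h := Pool.Agent.Helper958.ExpP.main 3 3 (by norm_num) hG (fun _ => True)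
      (fun _ _ _ => trivial) (by
        intro H hexp _
        have h1 := Pool.Agent.Helper958.ExpP.three_class (Γ := H)
          (fun g => Subtype.ext (hexp g.1 g.2))
        rw [← Subgroup.top_subtype_lowerCentralSeries]
        have h3 : (⊤ : Subgroup H).lowerCentralSeries 3 = ⊥ := h1
        rw [h3, Subgroup.map_bot]) ⟨H, hH1, hH2, trivial⟩
    norm_num at h
    exact h
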